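import Mathlib
import Pool.Agent.Helper32.AG.Goals

set_option autoImplicit false

namespace Pool.Agent.Helper13.AG

open Pool.Agent.Helper32.AG

universe u

theorem norm_surj {R : Type u} [Field R] [Finite R] (τ : R ≃+* R) (c : R) (hc : τ c = c) :
    ∃ b : R, ∏ i ∈ Finset.range (orderOf τ), (τ ^ i) b = c := by
  classical
  let τ' : RingAut R := τ
  have : Finite (RingAut R) := Finite.of_injective (fun σ : RingAut R => (σ : R → R))
    (fun a b h => RingEquiv.ext (fun x => congrFun h x))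
  let G : Subgroup (RingAut R) := Subgroup.zpowers τ'
  let _ : Fintype G := Fintype.ofFinite _
  have hcG : ∀ g : G, g • c = c := by
    intro g
    obtain ⟨n, hn⟩ := (Subgroup.mem_zpowers_iff.1 g.2)
    have h1 : (g : RingAut R) ∈ MulAction.stabilizer (RingAut R) c := by
      have : G ≤ MulAction.stabilizer (RingAut R) c := by
        rw [Subgroup.zpowers_le]
        exact hc
      exact this g.2
    exact h1
  let F := FixedPoints.subfield G R
  have hcF : c ∈ F := hcG
  have : Finite F := inferInstance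
  obtain ⟨b, hb⟩ := FiniteField.norm_surjective F R ⟨c, hcF⟩
  have h2 := Algebra.norm_eq_prod_automorphisms F b
  rw [hb] at h2
  refine ⟨b, ?_⟩
  have h3 : algebraMap F R ⟨c, hcF⟩ = c := rfl
  rw [h3] at h2
  rw [h2]
  have h4 : ∏ σ : (R ≃ₐ[F] R), σ b = ∏ g : G, (g : RingAut R) b := by
    symm
    refine Fintype.prod_equiv (FixedPoints.toAlgAutMulEquiv G R).toEquiv _ _ ?_
    intro g
    rfl
  rw [h4]
  have hfo : IsOfFinOrder τ' := isOfFinOrder_of_finite τ'
  have h5 : ∏ g : G, (g : RingAut R) b = ∏ i : Fin (orderOf τ'), (τ' ^ (i : ℕ)) b := by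
    symm
    refine Fintype.prod_equiv (finEquivZPowers hfo) _ _ ?_
    intro i
    rfl
  rw [h5, Finset.prod_range]


theorem fixed_vec {R : Type u} [Field R] {U : Type u} [AddCommGroup U] [Module R U]
    (τ : R ≃+* R) (hfin : 0 < orderOf τ) (s : U →+ U) (hs : ∀ (r : R) (u : U), s (r • u) = τ r • s u)
    (u : U) (hu : u ≠ 0) (hd : s^[orderOf τ] u = u) :
    ∃ v : U, v ≠ 0 ∧ s v = v := by
  classical
  let V : R → U := fun e => ∑ i ∈ Finset.range (orderOf τ), ((τ ^ i) e) • s^[i] u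
  have hfix : ∀ e, s (V e) = V e := by
    intro e
    have h1 : s (V e) = ∑ i ∈ Finset.range (orderOf τ), ((τ ^ (i + 1)) e) • s^[i + 1] u := by
      simp only [V]
      rw [map_sum]
      refine Finset.sum_congr rfl ?_
      intro i _
      rw [hs, Function.iterate_succ_apply', pow_succ']
      rfl
    have h2 := Finset.sum_range_succ (fun i => ((τ ^ i) e) • s^[i] u) (orderOf τ)
    have h3 := Finset.sum_range_succ' (fun i => ((τ ^ i) e) • s^[i] u) (orderOf τ)
    rw [h3] at h2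
    rw [pow_orderOf_eq_one, hd, pow_zero, Function.iterate_zero, id_eq] at h2
    rw [h1]
    exact add_right_cancel h2
  by_contra hcon
  push Not at hcon
  have hz : ∀ e, V e = 0 := by
    intro e
    by_contra h
    exact hcon (V e) h (hfix e)
  apply hu
  rw [← Module.forall_dual_apply_eq_zero_iff R]
  intro f
  have hinj : Function.Injective
      (fun i : Fin (orderOf τ) => ((τ ^ (i : ℕ) : R ≃+* R) : R →* R)) := by
    intro i j hij
    have h1 : τ ^ (i : ℕ) = τ ^ (j : ℕ) := by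
      apply RingEquiv.ext
      intro x
      exact congrArg (fun g : R →* R => g x) hij
    exact Fin.ext (pow_injOn_Iio_orderOf i.2 j.2 h1)
  have hli := (linearIndependent_monoidHom R R).comp _ hinj
  rw [Fintype.linearIndependent_iff] at hli
  have h5 := hli (fun i => f (s^[(i : ℕ)] u)) (by
    funext e
    have h6 := congrArg f (hz e)
    simp only [V] at h6
    rw [map_sum, map_zero, Finset.sum_range] at h6
    rw [Finset.sum_apply, Pi.zero_apply, ← h6]
    refine Finset.sum_congr rfl ?_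
    intro i _
    rw [map_smul, smul_eq_mul, mul_comm, Pi.smul_apply, smul_eq_mul]
    rfl) ⟨0, hfin⟩
  exact h5

theorem fixed_line {R : Type u} [Field R] [Finite R] {U : Type u} [AddCommGroup U] [Module R U]
    [Nontrivial U] (τ : R ≃+* R) (σ : U →+ U) (hσ : ∀ (r : R) (u : U), σ (r • u) = τ r • σ u)
    (c : R) (hc0 : c ≠ 0) (hc : τ c = c) (hd : ∀ u, σ^[orderOf τ] u = c • u) :
    ∃ v : U, v ≠ 0 ∧ ∃ b : R, σ v = b • v := by
  classical
  obtain ⟨b, hb⟩ := norm_surj τ c hc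
  have : Finite (RingAut R) := Finite.of_injective (fun σ : RingAut R => (σ : R → R))
    (fun a b h => RingEquiv.ext (fun x => congrFun h x))
  have hfin : 0 < orderOf τ := orderOf_pos (G := RingAut R) τ
  obtain ⟨u, hu⟩ := exists_ne (0 : U)
  let s : U →+ U :=
    { toFun := fun w => b⁻¹ • σ w
      map_zero' := by rw [map_zero, smul_zero]
      map_add' := fun x y => by rw [map_add, smul_add] }
  have hsapp : ∀ w, s w = b⁻¹ • σ w := fun w => rfl
  have hs : ∀ (r : R) (u : U), s (r • u) = τ r • s u := by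
    intro r u
    rw [hsapp, hsapp, hσ, smul_smul, smul_smul, mul_comm]
  have hit : ∀ (n : ℕ), s^[n] u = (∏ i ∈ Finset.range n, (τ ^ i) b)⁻¹ • σ^[n] u := by
    intro n
    induction n with
    | zero => simp
    | succ n ih =>
      rw [Function.iterate_succ_apply', ih, hs, hsapp, Function.iterate_succ_apply', smul_smul,
        Finset.prod_range_succ', map_inv₀, map_prod, mul_inv]
      have h1 : ∀ x ∈ Finset.range n, τ ((τ ^ x) b) = (τ ^ (x + 1)) b := by
        intro x _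
        rw [pow_succ']
        rfl
      rw [Finset.prod_congr rfl h1, pow_zero]
      rfl
  have hd' : s^[orderOf τ] u = u := by
    rw [hit, hb, hd, smul_smul, inv_mul_cancel₀ hc0, one_smul]
  obtain ⟨v, hv, hsv⟩ := fixed_vec τ hfin s hs u hu hd'
  refine ⟨v, hv, b, ?_⟩
  rw [hsapp] at hsv
  have hb0 : b ≠ 0 := by
    rintro rfl
    apply hc0
    rw [← hb]
    apply Finset.prod_eq_zero (Finset.mem_range.2 hfin)
    rw [map_zero]
  rw [← hsv, smul_smul, mul_inv_cancel₀ hb0, one_smul, hsv]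

theorem gen_aut {K : Type u} [Field K] [Finite K] (Γ : Subgroup (RingAut K)) :
    ∃ τ ∈ Γ, ∀ γ ∈ Γ, ∃ n : ℕ, γ = τ ^ n := by
  classical
  obtain ⟨p, hp⟩ := CharP.exists K
  have hpp : Fact p.Prime := by
    refine ⟨?_⟩
    rcases CharP.char_is_prime_or_zero K p with h | h
    · exact h
    · subst h
      exfalso
      have : CharZero K := CharP.charP_to_charZero K
      exact not_finite K
  let _ : Algebra (ZMod p) K := ZMod.algebra K p
  have hfin : Finite (RingAut K) := Finite.of_injective (fun σ : RingAut K => (σ : K → K))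
    (fun a b h => RingEquiv.ext (fun x => congrFun h x))
  let f : RingAut K →* Gal(K/(ZMod p)) :=
    { toFun := fun g => AlgEquiv.ofRingEquiv (f := g) (fun r => by
        have : (g : K →+* K).comp (algebraMap (ZMod p) K) = algebraMap (ZMod p) K :=
          Subsingleton.elim _ _
        exact congrArg (fun t : ZMod p →+* K => t r) this)
      map_one' := by ext x; rfl
      map_mul' := fun a b => by ext x; rfl }
  have hf : Function.Injective f := by
    intro a b h
    apply RingEquiv.ext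
    intro x
    exact congrArg (fun t : Gal(K/(ZMod p)) => t x) h
  have hcyc : IsCyclic (RingAut K) := isCyclic_of_injective f hf
  have hcΓ : IsCyclic Γ := inferInstance
  obtain ⟨g, hg⟩ := hcΓ.exists_generator
  refine ⟨g, g.2, ?_⟩
  intro γ hγ
  have h1 := hg ⟨γ, hγ⟩
  rw [← mem_powers_iff_mem_zpowers] at h1
  obtain ⟨n, hn⟩ := h1
  refine ⟨n, ?_⟩
  have h2 := congrArg Subtype.val hn
  simpa using h2.symm


section

variable {p : ℕ} [Fact p.Prime] {U : Type u} [AddCommGroup U] [Module (ZMod p) U]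

theorem cj_apply (h : U ≃ₗ[ZMod p] U) (x : Module.End (ZMod p) U) (u : U) :
    cj h x u = h (x (h⁻¹ u)) := rfl

theorem cj_mul (h : U ≃ₗ[ZMod p] U) (x y : Module.End (ZMod p) U) :
    cj h (x * y) = cj h x * cj h y := by
  ext u
  simp only [cj_apply, Module.End.mul_apply]
  have h1 : ∀ w : U, h⁻¹ (h w) = w := fun w => h.symm_apply_apply w
  rw [h1]

theorem cj_add (h : U ≃ₗ[ZMod p] U) (x y : Module.End (ZMod p) U) :
    cj h (x + y) = cj h x + cj h y := by
  ext u
  simp only [cj_apply, LinearMap.add_apply, map_add]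

theorem cj_algebraMap (h : U ≃ₗ[ZMod p] U) (r : ZMod p) :
    cj h (algebraMap (ZMod p) (Module.End (ZMod p) U) r) =
      algebraMap (ZMod p) (Module.End (ZMod p) U) r := by
  ext u
  rw [cj_apply, Module.algebraMap_end_apply, Module.algebraMap_end_apply, map_smul]
  congr 1
  exact h.apply_symm_apply u

theorem cj_comp (g h : U ≃ₗ[ZMod p] U) (x : Module.End (ZMod p) U) :
    cj (g * h) x = cj g (cj h x) := by
  ext u
  simp only [cj_apply]
  rw [mul_inv_rev]
  rfl

theorem cj_one (x : Module.End (ZMod p) U) : cj (1 : U ≃ₗ[ZMod p] U) x = x := by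
  ext u
  simp only [cj_apply]
  rfl

theorem cj_coe (h a : U ≃ₗ[ZMod p] U) :
    cj h (a : Module.End (ZMod p) U) = ((h * a * h⁻¹ : U ≃ₗ[ZMod p] U) : Module.End (ZMod p) U) :=
  rfl

theorem mem_rg_of_mem (A : Subgroup (U ≃ₗ[ZMod p] U)) {a : U ≃ₗ[ZMod p] U} (ha : a ∈ A) :
    (a : Module.End (ZMod p) U) ∈ Rg A :=
  Algebra.subset_adjoin ⟨a, ha, rfl⟩

theorem cj_mem {H A : Subgroup (U ≃ₗ[ZMod p] U)} (hn : ∀ h ∈ H, ∀ a ∈ A, h * a * h⁻¹ ∈ A)
    {h : U ≃ₗ[ZMod p] U} (hh : h ∈ H) {x : Module.End (ZMod p) U} (hx : x ∈ Rg A) :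
    cj h x ∈ Rg A := by
  refine Algebra.adjoin_induction (p := fun x _ => cj h x ∈ Rg A) ?_ ?_ ?_ ?_ hx
  · rintro _ ⟨a, ha, rfl⟩
    exact mem_rg_of_mem A (hn h hh a ha)
  · intro r
    rw [cj_algebraMap]
    exact Subalgebra.algebraMap_mem _ r
  · intro x y _ _ h1 h2
    rw [cj_add]
    exact add_mem h1 h2
  · intro x y _ _ h1 h2
    rw [cj_mul]
    exact mul_mem h1 h2

theorem coe_inj {a b : U ≃ₗ[ZMod p] U}
    (h : (a : Module.End (ZMod p) U) = (b : Module.End (ZMod p) U)) : a = b := by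
  apply LinearEquiv.ext
  intro u
  exact congrArg (fun t : Module.End (ZMod p) U => t u) h

theorem coe_pow_apply (a : U ≃ₗ[ZMod p] U) (n : ℕ) (u : U) : (a ^ n) u = a^[n] u := by
  induction n generalizing u with
  | zero => rfl
  | succ n ih =>
    rw [pow_succ, Function.iterate_succ_apply]
    exact ih (a u)

theorem oneA_abs [Finite U] [Nontrivial U] (H A : Subgroup (U ≃ₗ[ZMod p] U)) (hI : Irr H)
    (_hAH : A ≤ H) (hn : ∀ h ∈ H, ∀ a ∈ A, h * a * h⁻¹ ∈ A)
    (hcen : ∀ h ∈ H, (∀ a ∈ A, h * a = a * h) → h ∈ A)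
    (K : Type u) [Field K] (ι : K →+* Module.End (ZMod p) U) (hι : ∀ x, x ∈ Rg A ↔ ∃ k, ι k = x) :
    Nat.card U = Nat.card K := by
  classical
  have hinj : Function.Injective ι := ι.injective
  have hfE : Finite (Module.End (ZMod p) U) :=
    Finite.of_injective (fun f : Module.End (ZMod p) U => (f : U → U)) DFunLike.coe_injective
  have hfK : Finite K := Finite.of_injective _ hinj
  have hex : ∀ h : H, ∀ k : K, ∃ k' : K, ι k' = cj (h : U ≃ₗ[ZMod p] U) (ι k) := by
    intro h k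
    exact (hι _).1 (cj_mem hn h.2 ((hι _).2 ⟨k, rfl⟩))
  choose ψ hψ using hex
  have hψ1 : ∀ k, ψ 1 k = k := by
    intro k
    apply hinj
    rw [hψ]
    exact cj_one _
  have hψm : ∀ g h k, ψ (g * h) k = ψ g (ψ h k) := by
    intro g h k
    apply hinj
    rw [hψ, hψ, hψ]
    exact cj_comp _ _ _
  let Ψ : H →* RingAut K :=
    { toFun := fun h =>
        { toFun := ψ h
          invFun := ψ h⁻¹
          left_inv := fun k => by rw [← hψm, inv_mul_cancel, hψ1]
          right_inv := fun k => by rw [← hψm, mul_inv_cancel, hψ1]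
          map_mul' := fun x y => by
            apply hinj
            rw [hψ, map_mul, map_mul, cj_mul, hψ, hψ]
          map_add' := fun x y => by
            apply hinj
            rw [hψ, map_add, map_add, cj_add, hψ, hψ] }
      map_one' := RingEquiv.ext hψ1
      map_mul' := fun g h => RingEquiv.ext (hψm g h) }
  have hΨ : ∀ (h : H) (k : K), ι (Ψ h k) = cj (h : U ≃ₗ[ZMod p] U) (ι k) := fun h k => hψ h k
  have hker : ∀ h : H, Ψ h = 1 → (h : U ≃ₗ[ZMod p] U) ∈ A := by
    intro h h1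
    apply hcen _ h.2
    intro a ha
    obtain ⟨k, hk⟩ := (hι _).1 (mem_rg_of_mem A ha)
    have h2 := hΨ h k
    rw [h1, hk, cj_coe] at h2
    have h3 : ι ((1 : RingAut K) k) = (a : Module.End (ZMod p) U) := hk
    rw [h3] at h2
    have h4 := coe_inj h2
    rw [eq_mul_inv_iff_mul_eq] at h4
    exact h4.symm
  obtain ⟨τ, hτ, hgen⟩ := gen_aut Ψ.range
  obtain ⟨σ, rfl⟩ := hτ
  have hfR : Finite (RingAut K) := Finite.of_injective (fun σ : RingAut K => (σ : K → K))
    (fun a b h => RingEquiv.ext (fun x => congrFun h x))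
  have hσd : ((σ ^ orderOf (Ψ σ) : H) : U ≃ₗ[ZMod p] U) ∈ A := by
    apply hker
    rw [map_pow, pow_orderOf_eq_one]
  obtain ⟨c, hc⟩ := (hι _).1 (mem_rg_of_mem A hσd)
  have hc' : ∀ u : U, ι c u = (σ : U ≃ₗ[ZMod p] U)^[orderOf (Ψ σ)] u := by
    intro u
    rw [hc]
    exact coe_pow_apply _ _ _
  let _ : Module K U := Module.compHom U ι
  have hsm : ∀ (k : K) (u : U), k • u = ι k u := fun k u => rfl
  let s : U →+ U := ((σ : U ≃ₗ[ZMod p] U) : U →ₗ[ZMod p] U).toAddMonoidHom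
  have hsσ : ∀ u, s u = (σ : U ≃ₗ[ZMod p] U) u := fun u => rfl
  have hss : ∀ (r : K) (u : U), s (r • u) = (Ψ σ) r • s u := by
    intro r u
    rw [hsm, hsm, hsσ, hsσ, hΨ, cj_apply]
    congr 2
    exact ((σ : U ≃ₗ[ZMod p] U).symm_apply_apply u).symm
  have hc0 : c ≠ 0 := by
    rintro rfl
    obtain ⟨u, hu⟩ := exists_ne (0 : U)
    have h1 := hc' u
    rw [map_zero, LinearMap.zero_apply, ← coe_pow_apply] at h1
    apply hu
    have h2 : ((σ : U ≃ₗ[ZMod p] U) ^ orderOf (Ψ σ)) u =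
      ((σ : U ≃ₗ[ZMod p] U) ^ orderOf (Ψ σ)) 0 := by
      rw [map_zero]
      exact h1.symm
    exact LinearEquiv.injective _ h2
  have hcfix : (Ψ σ) c = c := by
    apply hinj
    rw [hΨ, hc, cj_coe]
    have h1 : (σ : U ≃ₗ[ZMod p] U) * ((σ ^ orderOf (Ψ σ) : H) : U ≃ₗ[ZMod p] U) *
        (σ : U ≃ₗ[ZMod p] U)⁻¹ = ((σ ^ orderOf (Ψ σ) : H) : U ≃ₗ[ZMod p] U) := by
      rw [Subgroup.coe_pow, ← pow_succ', pow_succ, mul_inv_cancel_right]
    rw [h1]
  obtain ⟨v, hv, b, hb⟩ := fixed_line (Ψ σ) s hss c hc0 hcfix (fun u => (hc' u).symm)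
  let W : Submodule (ZMod p) U :=
    { carrier := {w | ∃ k : K, ι k v = w}
      add_mem' := by
        rintro _ _ ⟨k, rfl⟩ ⟨l, rfl⟩
        exact ⟨k + l, by rw [map_add, LinearMap.add_apply]⟩
      zero_mem' := ⟨0, by rw [map_zero, LinearMap.zero_apply]⟩
      smul_mem' := by
        rintro r _ ⟨k, rfl⟩
        obtain ⟨l, hl⟩ := (hι _).1 (Subalgebra.algebraMap_mem (Rg A) r)
        refine ⟨l * k, ?_⟩
        rw [map_mul, hl, Module.End.mul_apply, Module.algebraMap_end_apply] }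
  have hWA : ∀ a ∈ A, ∀ w ∈ W, a w ∈ W := by
    rintro a ha _ ⟨k, rfl⟩
    obtain ⟨l, hl⟩ := (hι _).1 (mem_rg_of_mem A ha)
    refine ⟨l * k, ?_⟩
    rw [map_mul, hl]
    rfl
  have hWσ : ∀ w ∈ W, (σ : U ≃ₗ[ZMod p] U) w ∈ W := by
    rintro _ ⟨k, rfl⟩
    refine ⟨(Ψ σ) k * b, ?_⟩
    have h1 := hss k v
    rw [hb, smul_smul, hsm, hsm, hsσ] at h1
    exact h1.symm
  have hWσn : ∀ n : ℕ, ∀ w ∈ W, ((σ : U ≃ₗ[ZMod p] U) ^ n) w ∈ W := by
    intro n
    induction n with
    | zero => exact fun w hw => hw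
    | succ n ih =>
      intro w hw
      rw [pow_succ]
      exact ih _ (hWσ w hw)
  have hWH : ∀ h ∈ H, ∀ w ∈ W, h w ∈ W := by
    intro h hh w hw
    obtain ⟨n, hn'⟩ := hgen (Ψ ⟨h, hh⟩) ⟨⟨h, hh⟩, rfl⟩
    have h1 : Ψ (⟨h, hh⟩ * (σ ^ n)⁻¹) = 1 := by
      rw [map_mul, map_inv, map_pow, hn', mul_inv_cancel]
    have h2 := hker _ h1
    have h3 : h w = ((⟨h, hh⟩ * (σ ^ n)⁻¹ : H) : U ≃ₗ[ZMod p] U)
        (((σ : U ≃ₗ[ZMod p] U) ^ n) w) := by
      have h4 : h = ((⟨h, hh⟩ * (σ ^ n)⁻¹ : H) : U ≃ₗ[ZMod p] U) * (σ : U ≃ₗ[ZMod p] U) ^ n := by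
        rw [Subgroup.coe_mul, Subgroup.coe_inv, Subgroup.coe_pow, inv_mul_cancel_right]
      exact congrArg (fun t : U ≃ₗ[ZMod p] U => t w) h4
    rw [h3]
    exact hWA _ h2 _ (hWσn n w hw)
  have hvW : v ∈ W := ⟨1, by rw [map_one, Module.End.one_apply]⟩
  have hWtop : W = ⊤ := by
    rcases hI W hWH with h | h
    · exfalso
      rw [h, Submodule.mem_bot] at hvW
      exact hv hvW
    · exact h
  symm
  refine Nat.card_congr (Equiv.ofBijective (fun k : K => ι k v) ⟨?_, ?_⟩)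
  · intro k l hkl
    by_contra hne
    apply hv
    have h1 : (k - l) • v = 0 := by
      rw [sub_smul, hsm, hsm]
      exact sub_eq_zero.2 hkl
    have h2 : (k - l) ≠ 0 := sub_ne_zero.2 hne
    have h3 := congrArg (fun t => (k - l)⁻¹ • t) h1
    simpa [smul_smul, inv_mul_cancel₀ h2] using h3
  · intro u
    have h1 : u ∈ W := by
      rw [hWtop]
      exact Submodule.mem_top
    exact h1

end

/-- one block: `|U| = |Rg A|`. -/
theorem oneA (p : ℕ) [Fact p.Prime] (U : Type u) [AddCommGroup U] [Module (ZMod p) U]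
    [Finite U] [Nontrivial U] (H A : Subgroup (U ≃ₗ[ZMod p] U)) (q : ℕ)
    (e : Fin 1 → Module.End (ZMod p) U) (hI : Irr H) (hAH : A ≤ H)
    (hn : ∀ h ∈ H, ∀ a ∈ A, h * a * h⁻¹ ∈ A) (hcomm : ∀ a ∈ A, ∀ b ∈ A, a * b = b * a)
    (hcen : ∀ h ∈ H, (∀ a ∈ A, h * a = a * h) → h ∈ A) (hD : Dec H A 1 q e) :
    IsField (Rg A) ∧ Nat.card U = Nat.card (Rg A) := by
  have he : e 0 = 1 := by
    have := hD.sum
    simpa using this
  have hcom : ∀ x ∈ Rg A, ∀ y ∈ Rg A, x * y = y * x := by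
    have h1 : IsMulCommutative (Rg A) := Algebra.isMulCommutative_adjoin (ZMod p)
      (s := (fun a : U ≃ₗ[ZMod p] U => (a : Module.End (ZMod p) U)) ''
        (A : Set (U ≃ₗ[ZMod p] U))) (by
        rintro _ ⟨a, ha, rfl⟩ _ ⟨b, hb, rfl⟩
        have h2 := hcomm a ha b hb
        exact congrArg (fun t : U ≃ₗ[ZMod p] U => (t : Module.End (ZMod p) U)) h2)
    intro x hx y hy
    exact congrArg Subtype.val (mul_comm' (⟨x, hx⟩ : Rg A) ⟨y, hy⟩)
  have hF : IsField (Rg A) :=
    { exists_pair_ne := ⟨0, 1, zero_ne_one⟩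
      mul_comm := fun x y => Subtype.ext (hcom x x.2 y y.2)
      mul_inv_cancel := by
        rintro ⟨x, hx⟩ hne
        have h1 : x * e 0 ≠ 0 := by
          rw [he, mul_one]
          intro h
          exact hne (Subtype.ext h)
        obtain ⟨y, hy, hxy⟩ := hD.fld 0 x hx h1
        rw [he, mul_one] at hxy
        exact ⟨⟨y, hy⟩, Subtype.ext hxy⟩ }
  refine ⟨hF, ?_⟩
  let _ : Field (Rg A) := hF.toField
  exact oneA_abs H A hI hAH hn hcen (Rg A)
    { toFun := fun x => x.1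
      map_one' := rfl
      map_mul' := fun _ _ => rfl
      map_zero' := rfl
      map_add' := fun _ _ => rfl }
    (fun x => ⟨fun hx => ⟨⟨x, hx⟩, rfl⟩, by rintro ⟨k, rfl⟩; exact k.2⟩)

end Pool.Agent.Helper13.AG
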