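import Mathlib
import Pool.Agent.Helper32.AG.Goals
import Pool.Agent.Helper13.AG.ONEa

/-!
# AG-ONE, part b: the packet ONE from `oneA` and GRP
-/

set_option autoImplicit false

namespace Pool.Agent.Helper13.AG

open Pool.Agent.Helper32.AG

universe u

section

variable {p : ℕ} [Fact p.Prime] {U : Type u} [AddCommGroup U] [Module (ZMod p) U]

/-- The data of one block over an abstract field `K`. -/
theorem oneB_abs [Finite U] [Nontrivial U] (H A : Subgroup (U ≃ₗ[ZMod p] U))
    (hAH : A ≤ H) (hn : ∀ h ∈ H, ∀ a ∈ A, h * a * h⁻¹ ∈ A)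
    (_hcomm : ∀ a ∈ A, ∀ b ∈ A, a * b = b * a)
    (hcen : ∀ h ∈ H, (∀ a ∈ A, h * a = a * h) → h ∈ A)
    (K : Type u) [Field K] (ι : K →+* Module.End (ZMod p) U) (hι : ∀ x, x ∈ Rg A ↔ ∃ k, ι k = x) :
    ∃ a d : ℕ, 0 < a ∧ 0 < d ∧ Nat.card K = p ^ a ∧ d ∣ a ∧ Nat.card H = Nat.card A * d ∧
      (A.subgroupOf H).index = d ∧ (∀ x ∈ H, ∀ y ∈ H, x * y * x⁻¹ * y⁻¹ ∈ A) ∧
      Nat.card A ∣ p ^ a - 1 ∧
      (∀ a', a' ∣ a → a' < a → ¬ Nat.card A ∣ p ^ a' - 1) := by
  classical
  have hinj : Function.Injective ι := ι.injective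
  have hfE : Finite (Module.End (ZMod p) U) :=
    Finite.of_injective (fun f : Module.End (ZMod p) U => (f : U → U)) DFunLike.coe_injective
  have hfL : Finite (U ≃ₗ[ZMod p] U) :=
    Finite.of_injective (fun f : U ≃ₗ[ZMod p] U => (f : U → U)) DFunLike.coe_injective
  have hfK : Finite K := Finite.of_injective _ hinj
  -- the homomorphism
  have hex : ∀ h : H, ∀ k : K, ∃ k' : K, ι k' = cj (h : U ≃ₗ[ZMod p] U) (ι k) := by
    intro h k
    exact (hι _).1 (cj_mem hn h.2 ((hι _).2 ⟨k, rfl⟩))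
  choose ψ hψ using hex
  have hψ1 : ∀ k, ψ 1 k = k := by
    intro k
    apply hinj
    rw [hψ]
    exact cj_one _
  have hψm : ∀ g h k, ψ (g * h) k = ψ g (ψ h k) := by
    intro g h k
    apply hinj
    rw [hψ, hψ, hψ]
    exact cj_comp _ _ _
  let Ψ : H →* RingAut K :=
    { toFun := fun h =>
        { toFun := ψ h
          invFun := ψ h⁻¹
          left_inv := fun k => by rw [← hψm, inv_mul_cancel, hψ1]
          right_inv := fun k => by rw [← hψm, mul_inv_cancel, hψ1]
          map_mul' := fun x y => by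
            apply hinj
            rw [hψ, map_mul, map_mul, cj_mul, hψ, hψ]
          map_add' := fun x y => by
            apply hinj
            rw [hψ, map_add, map_add, cj_add, hψ, hψ] }
      map_one' := RingEquiv.ext hψ1
      map_mul' := fun g h => RingEquiv.ext (hψm g h) }
  have hΨ : ∀ (h : H) (k : K), ι (Ψ h k) = cj (h : U ≃ₗ[ZMod p] U) (ι k) := fun h k => hψ h k
  have hker : ∀ h : H, Ψ h = 1 → (h : U ≃ₗ[ZMod p] U) ∈ A := by
    intro h h1
    apply hcen _ h.2
    intro a ha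
    obtain ⟨k, hk⟩ := (hι _).1 (mem_rg_of_mem A ha)
    have h2 := hΨ h k
    rw [h1, hk, cj_coe] at h2
    have h3 : ι ((1 : RingAut K) k) = (a : Module.End (ZMod p) U) := hk
    rw [h3] at h2
    have h4 := coe_inj h2
    rw [eq_mul_inv_iff_mul_eq] at h4
    exact h4.symm
  have hker' : ∀ h : H, (h : U ≃ₗ[ZMod p] U) ∈ A → Ψ h = 1 := by
    intro h hh
    apply RingEquiv.ext
    intro k
    obtain ⟨l, hl⟩ := (hι _).1 (mem_rg_of_mem A hh)
    obtain ⟨l', hl'⟩ := (hι _).1 (mem_rg_of_mem A (inv_mem hh))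
    apply hinj
    rw [hΨ]
    have h1 : cj (h : U ≃ₗ[ZMod p] U) (ι k) = ι (l * k * l') := by
      rw [map_mul, map_mul, hl, hl']
      rfl
    have h2 : l * l' = 1 := by
      apply hinj
      rw [map_mul, map_one, hl, hl']
      have h3 : (h : U ≃ₗ[ZMod p] U) * (h : U ≃ₗ[ZMod p] U)⁻¹ = 1 := mul_inv_cancel _
      exact congrArg (fun t : U ≃ₗ[ZMod p] U => (t : Module.End (ZMod p) U)) h3
    rw [h1]
    have h4 : l * k * l' = k := by
      rw [mul_right_comm, h2, one_mul]
    rw [h4]
    rfl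
  have hkerA : Ψ.ker = A.subgroupOf H := by
    ext h
    rw [MonoidHom.mem_ker, Subgroup.mem_subgroupOf]
    exact ⟨hker h, hker' h⟩
  -- characteristic
  have hchE : CharP (Module.End (ZMod p) U) p := by
    have h1 : Function.Injective (algebraMap (ZMod p) (Module.End (ZMod p) U)) :=
      (algebraMap (ZMod p) (Module.End (ZMod p) U)).injective
    exact charP_of_injective_algebraMap h1 p
  have hchK : CharP K p := (RingHom.charP_iff ι hinj p).2 hchE
  let _ : Algebra (ZMod p) K := ZMod.algebra K p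
  have hfR : Finite (RingAut K) := Finite.of_injective (fun σ : RingAut K => (σ : K → K))
    (fun a b h => RingEquiv.ext (fun x => congrFun h x))
  let f : RingAut K →* Gal(K/(ZMod p)) :=
    { toFun := fun g => AlgEquiv.ofRingEquiv (f := g) (fun r => by
        have : (g : K →+* K).comp (algebraMap (ZMod p) K) = algebraMap (ZMod p) K :=
          Subsingleton.elim _ _
        exact congrArg (fun t : ZMod p →+* K => t r) this)
      map_one' := by ext x; rfl
      map_mul' := fun a b => by ext x; rfl }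
  have hf : Function.Injective f := by
    intro a b h
    apply RingEquiv.ext
    intro x
    exact congrArg (fun t : Gal(K/(ZMod p)) => t x) h
  have hfin : Module.Finite (ZMod p) K := Module.Finite.of_finite
  have hcardK : Nat.card K = p ^ Module.finrank (ZMod p) K := by
    have := Module.natCard_eq_pow_finrank (K := ZMod p) (V := K)
    rwa [Nat.card_zmod] at this
  have hcomΨ : ∀ g h : H, Ψ g * Ψ h = Ψ h * Ψ g := by
    obtain ⟨τ, _, hgen⟩ := gen_aut Ψ.range
    intro g h
    obtain ⟨m, hm⟩ := hgen (Ψ g) ⟨g, rfl⟩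
    obtain ⟨n, hn'⟩ := hgen (Ψ h) ⟨h, rfl⟩
    rw [hm, hn', ← pow_add, ← pow_add, add_comm]
  have hcardA : Nat.card (A.subgroupOf H) = Nat.card A :=
    Nat.card_congr (Subgroup.subgroupOfEquivOfLe hAH).toEquiv
  have hr : Nat.card Ψ.range ∣ Module.finrank (ZMod p) K := by
    rw [← IsGalois.card_aut_eq_finrank]
    exact Subgroup.card_dvd_of_injective (f.comp Ψ.range.subtype)
      (hf.comp Subtype.val_injective)
  have hidx : (A.subgroupOf H).index = Nat.card Ψ.range := by
    rw [← hkerA, Subgroup.index_ker]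
  have ha0 : 0 < Module.finrank (ZMod p) K := Module.finrank_pos
  -- `A → Kˣ`
  have hexA : ∀ a : A, ∃ k : K, ι k = ((a : U ≃ₗ[ZMod p] U) : Module.End (ZMod p) U) :=
    fun a => (hι _).1 (mem_rg_of_mem A a.2)
  choose θ hθ using hexA
  let Θ : A →* K :=
    { toFun := θ
      map_one' := by
        apply hinj
        rw [hθ, map_one]
        rfl
      map_mul' := fun a b => by
        apply hinj
        rw [hθ, map_mul, hθ, hθ]
        rfl }
  have hΘ : Function.Injective Θ.toHomUnits := by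
    intro a b hab
    have h1 : θ a = θ b := congrArg (fun t : Kˣ => (t : K)) hab
    apply Subtype.ext
    apply coe_inj
    rw [← hθ, ← hθ, h1]
  have hAd : Nat.card A ∣ p ^ Module.finrank (ZMod p) K - 1 := by
    rw [← hcardK, ← Nat.card_units]
    exact Subgroup.card_dvd_of_injective Θ.toHomUnits hΘ
  refine ⟨Module.finrank (ZMod p) K, Nat.card Ψ.range, ha0, Nat.card_pos, hcardK, hr, ?_, hidx, ?_,
    hAd, ?_⟩
  · rw [← hcardA, ← hidx, Subgroup.card_mul_index]
  · intro x hx y hy
    have h1 : Ψ (⟨x, hx⟩ * ⟨y, hy⟩ * (⟨x, hx⟩ : H)⁻¹ * (⟨y, hy⟩ : H)⁻¹) = 1 := by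
      rw [map_mul, map_mul, map_mul, map_inv, map_inv, hcomΨ, mul_inv_cancel_right, mul_inv_cancel]
    exact hker _ h1
  · intro a' ha' hlt hdiv
    have ha'0 : 0 < a' := Nat.pos_of_dvd_of_pos ha' ha0
    have hp1 : 1 < p := (Fact.out : p.Prime).one_lt
    have hpa : 1 < p ^ a' := Nat.one_lt_pow ha'0.ne' hp1
    -- every element of `K` is fixed by the `a'`-th power of Frobenius
    have hall : ∀ x ∈ Rg A, ∃ k : K, ι k = x ∧ k ^ (p ^ a') = k := by
      intro x hx
      refine Algebra.adjoin_induction (p := fun x _ => ∃ k : K, ι k = x ∧ k ^ (p ^ a') = k)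
        ?_ ?_ ?_ ?_ hx
      · rintro _ ⟨a, ha, rfl⟩
        refine ⟨θ ⟨a, ha⟩, hθ ⟨a, ha⟩, ?_⟩
        obtain ⟨m, hm⟩ := hdiv
        have h1 : (θ ⟨a, ha⟩) ^ Nat.card A = 1 := by
          have h2 : (⟨a, ha⟩ : A) ^ Nat.card A = 1 := pow_card_eq_one'
          have h3 := congrArg Θ h2
          rw [map_pow, map_one] at h3
          exact h3
        have h4 : (θ ⟨a, ha⟩) ^ (p ^ a' - 1) = 1 := by
          rw [hm, pow_mul, h1, one_pow]
        have h5 : p ^ a' = (p ^ a' - 1) + 1 := by omega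
        rw [h5, pow_succ, h4, one_mul]
      · intro r
        obtain ⟨k, hk⟩ := (hι _).1 (Subalgebra.algebraMap_mem (Rg A) r)
        refine ⟨k, hk, ?_⟩
        apply hinj
        have h6 : r ^ (p ^ a') = r := by
          have h7 : ∀ n : ℕ, r ^ (p ^ n) = r := by
            intro n
            induction n with
            | zero => rw [pow_zero, pow_one]
            | succ n ih => rw [pow_succ, pow_mul, ih, ZMod.pow_card]
          exact h7 a'
        rw [map_pow, hk, ← map_pow, h6]
      · rintro x y _ _ ⟨k, rfl, hk⟩ ⟨l, rfl, hl⟩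
        refine ⟨k + l, by rw [map_add], ?_⟩
        rw [add_pow_char_pow, hk, hl]
      · rintro x y _ _ ⟨k, rfl, hk⟩ ⟨l, rfl, hl⟩
        refine ⟨k * l, by rw [map_mul], ?_⟩
        rw [mul_pow, hk, hl]
    have hallK : ∀ k : K, k ^ (p ^ a') = k := by
      intro k
      obtain ⟨l, hl, hl2⟩ := hall (ι k) ((hι _).2 ⟨k, rfl⟩)
      have := hinj hl
      rwa [this] at hl2
    have hcyc : IsCyclic Kˣ := inferInstance
    obtain ⟨g, hg⟩ := hcyc.exists_generator
    have hord : orderOf g = Nat.card Kˣ := orderOf_eq_card_of_forall_mem_zpowers hg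
    have hg1 : g ^ (p ^ a' - 1) = 1 := by
      have h5 : p ^ a' = (p ^ a' - 1) + 1 := by omega
      have h8 : g ^ (p ^ a') = g := by
        apply Units.ext
        rw [Units.val_pow_eq_pow_val]
        exact hallK g
      rw [h5, pow_succ] at h8
      exact mul_eq_right.1 h8
    have hdv := orderOf_dvd_of_pow_eq_one hg1
    rw [hord, Nat.card_units, hcardK] at hdv
    have hle := Nat.le_of_dvd (by omega) hdv
    have hlt2 : p ^ a' < p ^ Module.finrank (ZMod p) K := Nat.pow_lt_pow_right hp1 hlt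
    omega

end

/-- **Packet ONE.** -/
theorem one (hG : GrpStmt.{u}) : OneStmt.{u} := by
  intro p _ U _ _ _ _ H A q e hI hAH hn hcomm hcen hpH hD
  obtain ⟨hF, hcard⟩ := oneA p U H A q e hI hAH hn hcomm hcen hD
  let _ : Field (Rg A) := hF.toField
  obtain ⟨a, d, ha, hd, hK, hda, hHA, hidx, hcom, hA1, hA2⟩ := oneB_abs H A hAH hn hcomm hcen (Rg A)
    { toFun := fun x => x.1
      map_one' := rfl
      map_mul' := fun _ _ => rfl
      map_zero' := rfl
      map_add' := fun _ _ => rfl }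
    (fun x => ⟨fun hx => ⟨⟨x, hx⟩, rfl⟩, by rintro ⟨k, rfl⟩; exact k.2⟩)
  have hfL : Finite (U ≃ₗ[ZMod p] U) :=
    Finite.of_injective (fun f : U ≃ₗ[ZMod p] U => (f : U → U)) DFunLike.coe_injective
  refine ⟨a, d, Nat.card A, ha, hd, Nat.card_pos, hcard.trans hK, hda, ?_, hA1, hA2, hHA, ?_⟩
  · intro hpd
    apply hpH
    rw [hHA]
    exact Dvd.dvd.mul_left hpd _
  · obtain ⟨g1, _, g3⟩ := hG
    have hN : (A.subgroupOf H).Normal := by
      constructor
      intro x hx g
      rw [Subgroup.mem_subgroupOf] at hx ⊢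
      exact hn g g.2 x hx
    have h1 := g1 H (A.subgroupOf H) (by
      intro x hx y hy
      rw [Subgroup.mem_subgroupOf] at hx hy
      exact Subtype.ext (hcomm x hx y hy))
    have h2 : k (H ⧸ A.subgroupOf H) = Nat.card (H ⧸ A.subgroupOf H) := by
      apply g3
      intro x y
      induction x using QuotientGroup.induction_on with
      | H x =>
        induction y using QuotientGroup.induction_on with
        | H y =>
          rw [← QuotientGroup.mk_mul, ← QuotientGroup.mk_mul, QuotientGroup.eq,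
            Subgroup.mem_subgroupOf]
          have h3 := hcom (y⁻¹ : H) (y⁻¹ : H).2 (x⁻¹ : H) (x⁻¹ : H).2
          have h4 : (((x * y)⁻¹ * (y * x) : H) : U ≃ₗ[ZMod p] U) =
              ((y⁻¹ : H) : U ≃ₗ[ZMod p] U) * ((x⁻¹ : H) : U ≃ₗ[ZMod p] U) *
                ((y⁻¹ : H) : U ≃ₗ[ZMod p] U)⁻¹ * ((x⁻¹ : H) : U ≃ₗ[ZMod p] U)⁻¹ := by
            rw [← Subgroup.coe_inv, ← Subgroup.coe_inv, ← Subgroup.coe_mul, ← Subgroup.coe_mul,
              ← Subgroup.coe_mul, inv_inv, inv_inv, mul_inv_rev, mul_assoc, mul_assoc, mul_assoc]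
          rw [h4]
          exact h3
    have h5 : Nat.card (H ⧸ A.subgroupOf H) = d := hidx
    have h6 : Nat.card (A.subgroupOf H) = Nat.card A :=
      Nat.card_congr (Subgroup.subgroupOfEquivOfLe hAH).toEquiv
    rw [h2, h5, h6, hidx] at h1
    exact h1

end Pool.Agent.Helper13.AG
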